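import Mathlib

namespace Pool.Agent.Results.MP_ac28de_co.Aut

/-- Words over `{1,2}`: `false` is the letter `1`, `true` is the letter `2`. -/
abbrev Word := List Bool

/-- `y` covers `x` in the Young–Fibonacci lattice. -/
def Cov (x y : Word) : Prop :=
  (∃ j v, y = List.replicate j true ++ false :: v ∧ x = List.replicate j true ++ v) ∨
  (∃ j v, y = List.replicate j true ++ true :: v ∧ x = List.replicate j true ++ false :: v)

/-- Saturated chains from the empty word, listed from the top `x_n` down to `x_0`. -/
inductive Ch : List Word → Prop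
  | root : Ch [[]]
  | step {x y : Word} {l : List Word} : Ch (x :: l) → Cov x y → Ch (y :: x :: l)

/-- The tree of upward paths. -/
def T : SimpleGraph {c : List Word // Ch c} where
  Adj c d := (∃ y, c.1 = y :: d.1) ∨ (∃ y, d.1 = y :: c.1)
  symm := ⟨fun _ _ h => h.symm⟩
  loopless := ⟨fun c h => by
    rcases h with ⟨y, h⟩ | ⟨y, h⟩ <;> exact absurd (congrArg List.length h) (by simp)⟩

/-- The involution exchanging a final `2` with a final `11`. -/
def sw : Word → Word
  | [] => []
  | [true] => [false, false]
  | [false] => [false]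
  | [false, false] => [true]
  | a :: b :: l => a :: sw (b :: l)

/-- Words of the form `2…21`. -/
def Special (x : Word) : Prop := ∃ j, x = List.replicate j true ++ [false]

open Classical in
/-- The value of `ε` at the longest initial chain ending in a special word. -/
noncomputable def flag (ε : List Word → Bool) : List Word → Bool
  | [] => false
  | x :: l => if Special x then ε (x :: l) else flag ε l

/-- Apply `sw` to `x_i` exactly when the flag of the chain `x_0, …, x_{i-1}` is set. -/
noncomputable def act (ε : List Word → Bool) : List Word → List Word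
  | [] => []
  | y :: l => (if flag ε l = true then sw y else y) :: act ε l

theorem cov_nil (z : Word) : Cov [] z ↔ z = [false] := by
  constructor
  · rintro (⟨j, v, h1, h2⟩ | ⟨j, v, h1, h2⟩)
    · cases j with
      | zero => simp at h1 h2; simp [h1, h2]
      | succ j => simp [List.replicate_succ] at h2
    · simp at h2
  · rintro rfl
    exact Or.inl ⟨0, [], rfl, rfl⟩

theorem cov_one (v z : Word) : Cov (false :: v) z ↔ z = false :: false :: v ∨ z = true :: v := by
  constructor
  · rintro (⟨j, w, h1, h2⟩ | ⟨j, w, h1, h2⟩)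
    · cases j with
      | zero => simp at h1 h2; simp [h1, h2]
      | succ j => simp [List.replicate_succ] at h2
    · cases j with
      | zero => simp at h1 h2; simp [h1, h2]
      | succ j => simp [List.replicate_succ] at h2
  · rintro (rfl | rfl)
    · exact Or.inl ⟨0, false :: v, rfl, rfl⟩
    · exact Or.inr ⟨0, v, rfl, rfl⟩

theorem cov_two (v z : Word) :
    Cov (true :: v) z ↔ z = false :: true :: v ∨ ∃ w, z = true :: w ∧ Cov v w := by
  constructor
  · rintro (⟨j, w, h1, h2⟩ | ⟨j, w, h1, h2⟩)
    · cases j with
      | zero => simp at h1 h2; simp [h1, h2]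
      | succ j =>
        simp only [List.replicate_succ, List.cons_append, List.cons.injEq, true_and] at h1 h2
        exact Or.inr ⟨_, h1, Or.inl ⟨j, w, rfl, h2⟩⟩
    · cases j with
      | zero => simp at h2
      | succ j =>
        simp only [List.replicate_succ, List.cons_append, List.cons.injEq, true_and] at h1 h2
        exact Or.inr ⟨_, h1, Or.inr ⟨j, w, rfl, h2⟩⟩
  · rintro (rfl | ⟨w, rfl, ⟨j, u, h1, h2⟩ | ⟨j, u, h1, h2⟩⟩)
    · exact Or.inl ⟨0, true :: v, rfl, rfl⟩
    · exact Or.inl ⟨j + 1, u, by simp [List.replicate_succ, h1], by simp [List.replicate_succ, h2]⟩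
    · exact Or.inr ⟨j + 1, u, by simp [List.replicate_succ, h1], by simp [List.replicate_succ, h2]⟩

theorem cov_ne {x z : Word} (h : Cov x z) : z ≠ [] := by
  rcases h with ⟨j, v, h1, _⟩ | ⟨j, v, h1, _⟩ <;> simp [h1]

theorem cov_ins (x : Word) : Cov x (false :: x) := Or.inl ⟨0, x, rfl, rfl⟩

theorem sw_two {w : Word} (h : w ≠ []) : sw (true :: w) = true :: sw w := by
  cases w with
  | nil => exact absurd rfl h
  | cons b l => simp [sw]

theorem sw_one {w : Word} (h : w ≠ [false]) : sw (false :: w) = false :: sw w := by
  match w, h with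
  | [], _ => simp [sw]
  | [true], _ => simp [sw]
  | [false], h => exact absurd rfl h
  | a :: b :: l, _ => cases a <;> simp [sw]

theorem sw_nil {w : Word} (h : sw w = []) : w = [] := by
  match w, h with
  | [], _ => rfl
  | [true], h => simp [sw] at h
  | [false], h => simp [sw] at h
  | true :: b :: l, h => rw [sw_two (by simp)] at h; simp at h
  | [false, false], h => simp [sw] at h
  | false :: true :: l, h => rw [sw_one (by simp)] at h; simp at h
  | false :: false :: b :: l, h => rw [sw_one (by simp)] at h; simp at h

theorem sw_f {w : Word} (h : sw w = [false]) : w = [false] := by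
  match w, h with
  | [], h => simp [sw] at h
  | [true], h => simp [sw] at h
  | [false], _ => rfl
  | true :: b :: l, h => rw [sw_two (by simp)] at h; simp at h
  | [false, false], h => simp [sw] at h
  | false :: true :: l, h =>
    rw [sw_one (by simp)] at h
    simp only [List.cons.injEq, true_and] at h
    exact absurd (sw_nil h) (by simp)
  | false :: false :: b :: l, h =>
    rw [sw_one (by simp)] at h
    simp only [List.cons.injEq, true_and] at h
    exact absurd (sw_nil h) (by simp)

theorem sw_sw (w : Word) : sw (sw w) = w := by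
  induction w with
  | nil => rfl
  | cons a l ih =>
    cases a with
    | true =>
      by_cases h : l = []
      · subst h; simp [sw]
      · rw [sw_two h, sw_two (fun e => h (sw_nil e)), ih]
    | false =>
      by_cases h : l = [false]
      · subst h; simp [sw]
      · rw [sw_one h, sw_one (fun e => h (sw_f e)), ih]

theorem cov_sw {x z : Word} (h : Cov x z) : Cov (sw x) (sw z) := by
  induction x generalizing z with
  | nil => rw [cov_nil] at h; subst h; exact (cov_nil _).2 rfl
  | cons a l ih =>
    cases a with
    | false =>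
      rcases (cov_one _ _).1 h with rfl | rfl
      · by_cases h1 : l = []
        · subst h1; simp [sw, cov_one]
        · rw [sw_one (w := false :: l) (by simpa using h1)]
          exact cov_ins _
      · by_cases h1 : l = []
        · subst h1; simp [sw, cov_one]
        · by_cases h2 : l = [false]
          · subst h2; simp [sw, cov_two, cov_nil]
          · rw [sw_one h2, sw_two h1, cov_one]
            exact Or.inr rfl
    | true =>
      rcases (cov_two _ _).1 h with rfl | ⟨w, rfl, hw⟩
      · rw [sw_one (by simp)]
        exact cov_ins _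
      · by_cases h1 : l = []
        · subst h1
          rw [cov_nil] at hw
          subst hw
          simp [sw, cov_one]
        · rw [sw_two h1, sw_two (cov_ne hw), cov_two]
          exact Or.inr ⟨_, rfl, ih hw⟩

theorem sp_f : Special [false] := ⟨0, rfl⟩

theorem sp_two {v : Word} : Special (true :: v) ↔ Special v := by
  constructor
  · rintro ⟨j, h⟩
    cases j with
    | zero => simp at h
    | succ j => exact ⟨j, by simpa [List.replicate_succ] using h⟩
  · rintro ⟨j, rfl⟩
    exact ⟨j + 1, by simp [List.replicate_succ]⟩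

theorem sp_one {v : Word} : Special (false :: v) ↔ v = [] := by
  constructor
  · rintro ⟨j, h⟩
    cases j with
    | zero => simpa using h
    | succ j => simp [List.replicate_succ] at h
  · rintro rfl
    exact sp_f

theorem sp_nil : ¬ Special [] := by
  rintro ⟨j, h⟩
  simp at h

theorem sp_ne {x : Word} (h : Special x) : x ≠ [] := by
  rintro rfl
  exact sp_nil h

theorem sw_sp {x : Word} (h : Special x) : sw x = x := by
  induction x with
  | nil => rfl
  | cons a l ih =>
    cases a with
    | false => rw [sp_one] at h; subst h; rfl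
    | true => rw [sp_two] at h; rw [sw_two (sp_ne h), ih h]

theorem lemE {x z : Word} (h1 : Cov x z) (h2 : Cov x (sw z)) (h3 : sw z ≠ z) : Special x := by
  induction x generalizing z with
  | nil => rw [cov_nil] at h1 h2; exact absurd (h2.trans h1.symm) h3
  | cons a l ih =>
    cases a with
    | false =>
      rw [sp_one]
      by_contra hl
      rcases (cov_one _ _).1 h1 with rfl | rfl <;> rcases (cov_one _ _).1 h2 with e | e
      · exact h3 e
      · rw [sw_one (by simpa using hl)] at e; simp at e
      · rw [sw_two hl] at e; simp at e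
      · exact h3 e
    | true =>
      rw [sp_two]
      rcases (cov_two _ _).1 h1 with rfl | ⟨w, rfl, hw⟩ <;>
        rcases (cov_two _ _).1 h2 with e | ⟨w', e, hw'⟩
      · exact absurd e h3
      · rw [sw_one (by simp)] at e; simp at e
      · rw [sw_two (cov_ne hw)] at e; simp at e
      · rw [sw_two (cov_ne hw)] at e h3
        simp only [List.cons.injEq, true_and] at e
        exact ih hw (e ▸ hw') (fun e' => h3 (by rw [e']))

def mg : Word → Word
  | [] => []
  | false :: v => true :: v
  | true :: v => true :: mg v

def dg : Word → ℕ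
  | [] => 1
  | false :: _ => 2
  | true :: v => dg v + 1

theorem dg_pos (x : Word) : 1 ≤ dg x := by
  match x with
  | [] => simp [dg]
  | false :: _ => simp [dg]
  | true :: v => simp [dg]

theorem dg_two {x : Word} (h : false ∈ x) : 2 ≤ dg x := by
  match x, h with
  | false :: _, _ => simp [dg]
  | true :: v, _ => have := dg_pos v; simp [dg]; omega

theorem cov_mg {x : Word} (h : false ∈ x) : Cov x (mg x) := by
  induction x with
  | nil => simp at h
  | cons a l ih =>
    cases a with
    | false => simp [mg, cov_one]
    | true => rw [cov_two]; exact Or.inr ⟨_, rfl, ih (by simpa using h)⟩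

theorem cov_dg {x z : Word} (h : false ∈ x) (hc : Cov x z) : dg z ≤ dg x ∨ z = mg x := by
  induction x generalizing z with
  | nil => simp at h
  | cons a l ih =>
    cases a with
    | false => rcases (cov_one _ _).1 hc with rfl | rfl <;> simp [dg, mg]
    | true =>
      rcases (cov_two _ _).1 hc with rfl | ⟨w, rfl, hw⟩
      · have := dg_pos l
        left; simp [dg]; omega
      · rcases ih (by simpa using h) hw with e | e
        · left; simpa [dg] using e
        · right; simp [mg, e]

theorem sp_mem {x : Word} (h : Special x) : false ∈ x := by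
  obtain ⟨j, rfl⟩ := h
  simp

theorem sp_mg {x : Word} (h : Special x) : dg (mg x) = dg x ∧ sw (mg x) ≠ mg x ∧
    ∀ y, Cov x y → sw y ≠ y → y = mg x ∨ y = sw (mg x) := by
  induction x with
  | nil => exact absurd h sp_nil
  | cons a l ih =>
    cases a with
    | false =>
      rw [sp_one] at h
      subst h
      refine ⟨rfl, by simp [mg, sw], fun y hy _ => ?_⟩
      rcases (cov_one _ _).1 hy with rfl | rfl <;> simp [mg, sw]
    | true =>
      have h' := sp_two.1 h
      obtain ⟨i1, i2, i3⟩ := ih h'
      have hm := cov_ne (cov_mg (sp_mem h'))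
      refine ⟨by simp [mg, dg, i1], by simpa [mg, sw_two hm] using i2, fun y hy hs => ?_⟩
      rcases (cov_two _ _).1 hy with rfl | ⟨w, rfl, hw⟩
      · rw [sw_one (by simp), sw_sp h] at hs
        exact absurd rfl hs
      · rw [sw_two (cov_ne hw)] at hs
        simpa [mg, sw_two hm] using i3 w hw (fun e => hs (by rw [e]))

def E (x : Word) : Prop := x.getLast? = some false

theorem E_mem {x : Word} (h : E x) : false ∈ x := List.mem_of_getLast? h

theorem E_cons {a : Bool} {l : Word} (h : l ≠ []) : E (a :: l) ↔ E l := by
  cases l with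
  | nil => exact absurd rfl h
  | cons b l => simp [E, List.getLast?_cons_cons]

theorem E_two {l : Word} (h : E (true :: l)) : E l := by
  by_cases hl : l = []
  · subst hl; simp [E] at h
  · exact (E_cons hl).1 h

theorem nsp_mg {x : Word} (h : E x) (hn : ¬ Special x) :
    E (mg x) ∧ dg x < dg (mg x) ∧ (mg x).count false < x.count false := by
  induction x with
  | nil => simp [E] at h
  | cons a l ih =>
    cases a with
    | false =>
      rw [sp_one] at hn
      have hl := (E_cons hn).1 h
      have := dg_two (E_mem hl)
      exact ⟨(E_cons hn).2 hl, by simp [mg, dg]; omega, by simp [mg]⟩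
    | true =>
      rw [sp_two] at hn
      have hl := E_two h
      obtain ⟨i1, i2, i3⟩ := ih hl hn
      exact ⟨(E_cons (cov_ne (cov_mg (E_mem hl)))).2 i1, by simpa [mg, dg] using i2,
        by simpa [mg] using i3⟩

theorem mg_inj {x y : Word} (hx : false ∈ x) (hy : false ∈ y) (h1 : dg x = dg y)
    (h2 : mg x = mg y) : x = y := by
  induction x generalizing y with
  | nil => simp at hx
  | cons a l ih =>
    cases y with
    | nil => simp at hy
    | cons b m =>
      cases a <;> cases b
      · simpa [mg] using h2
      · have := dg_two (x := m) (by simpa using hy)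
        simp [dg] at h1; omega
      · have := dg_two (x := l) (by simpa using hx)
        simp [dg] at h1; omega
      · rw [ih (y := m) (by simpa using hx) (by simpa using hy) (by simpa [dg] using h1)
          (by simpa [mg] using h2)]

theorem sp_dg {j : ℕ} : dg (List.replicate j true ++ [false]) = j + 2 := by
  induction j with
  | zero => rfl
  | succ j ih => simp [List.replicate_succ, dg, ih]

theorem ncard_up (x : Word) : {z | Cov x z}.ncard = dg x := by
  induction x with
  | nil => simp [cov_nil, dg]
  | cons a l ih =>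
    cases a with
    | false =>
      have : {z | Cov (false :: l) z} = {false :: false :: l, true :: l} := by
        ext z; simp [cov_one]
      rw [this, Set.ncard_pair (by simp)]; rfl
    | true =>
      have : {z | Cov (true :: l) z} = insert (false :: true :: l) ((List.cons true) '' {z | Cov l z}) := by
        ext z; simp [cov_two, eq_comm, and_comm]
      have hf : {z | Cov l z}.Finite := Set.finite_of_ncard_pos (by rw [ih]; exact dg_pos l)
      rw [this, Set.ncard_insert_of_notMem (by simp) (hf.image _),
        Set.ncard_image_of_injective _ List.cons_injective, ih]; rfl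

def Bis (B : Word → Word → Prop) : Prop :=
  ∀ x y, B x y → dg x = dg y ∧ (∀ z, Cov x z → ∃ z', Cov y z' ∧ B z z') ∧
    (∀ z', Cov y z' → ∃ z, Cov x z ∧ B z z')

theorem bis_E {B : Word → Word → Prop} (hB : Bis B) (n : ℕ) :
    ∀ x y, x.count false = n → E x → E y → B x y → x = y := by
  induction n using Nat.strong_induction_on with
  | _ n ih =>
    intro x y hn hx hy hb
    obtain ⟨b1, b2, b3⟩ := hB x y hb
    by_cases sx : Special x
    · by_cases sy : Special y
      · obtain ⟨i, rfl⟩ := sx
        obtain ⟨j, rfl⟩ := sy
        rw [sp_dg, sp_dg] at b1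
        rw [show i = j by omega]
      · obtain ⟨z, c1, c2⟩ := b3 _ (cov_mg (E_mem hy))
        have := (hB _ _ c2).1
        have := (nsp_mg hy sy).2.1
        have := (sp_mg sx).1
        rcases cov_dg (E_mem hx) c1 with e | e
        · omega
        · subst e; omega
    · obtain ⟨m1, m2, m3⟩ := nsp_mg hx sx
      obtain ⟨z, c1, c2⟩ := b2 _ (cov_mg (E_mem hx))
      have := (hB _ _ c2).1
      rcases cov_dg (E_mem hy) c1 with e | e
      · omega
      · subst e
        by_cases sy : Special y
        · have := (sp_mg sy).1
          omega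
        · exact mg_inj (E_mem hx) (E_mem hy) b1
            (ih _ (hn ▸ m3) _ _ rfl m1 (nsp_mg hy sy).1 c2)

theorem dg_sw (x : Word) : dg (sw x) = dg x := by
  induction x with
  | nil => rfl
  | cons a l ih =>
    cases a with
    | true =>
      by_cases h : l = []
      · subst h; rfl
      · rw [sw_two h]; simp [dg, ih]
    | false =>
      by_cases h : l = [false]
      · subst h; rfl
      · rw [sw_one h]; rfl

theorem E_or {x : Word} (h : x ≠ []) : E x ∨ E (sw x) := by
  induction x with
  | nil => exact absurd rfl h
  | cons a l ih =>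
    by_cases hl : l = []
    · subst hl; cases a <;> simp [E, sw]
    · by_cases h2 : l = [false]
      · subst h2; left; simp [E]
      · have : sw (a :: l) = a :: sw l := by
          cases a
          · exact sw_one h2
          · exact sw_two hl
        rw [this, E_cons hl, E_cons (fun e => hl (sw_nil e))]
        exact ih hl

def s (b : Bool) (x : Word) : Word := if b = true then sw x else x

theorem s_s (b : Bool) (x : Word) : s b (s b x) = x := by cases b <;> simp [s, sw_sw]

theorem cov_s (b : Bool) {x z : Word} (h : Cov x z) : Cov (s b x) (s b z) := by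
  cases b
  · exact h
  · exact cov_sw h

theorem bis_all {B : Word → Word → Prop} (hB : Bis B) (x y : Word) (hx : x ≠ []) (hy : y ≠ [])
    (h : B x y) : y = x ∨ y = sw x := by
  have hB' : Bis fun x y => ∃ a b, B (s a x) (s b y) := by
    rintro x y ⟨a, b, h⟩
    obtain ⟨b1, b2, b3⟩ := hB _ _ h
    refine ⟨by cases a <;> cases b <;> simpa [s, dg_sw] using b1, fun z hz => ?_, fun z hz => ?_⟩
    · obtain ⟨z', c1, c2⟩ := b2 _ (cov_s a hz)
      exact ⟨s b z', by simpa [s_s] using cov_s b c1, a, b, by rwa [s_s]⟩
    · obtain ⟨z', c1, c2⟩ := b3 _ (cov_s b hz)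
      exact ⟨s a z', by simpa [s_s] using cov_s a c1, a, b, by rwa [s_s]⟩
  rcases E_or hx with e | e <;> rcases E_or hy with e' | e'
  · exact Or.inl (bis_E hB' _ _ _ rfl e e' ⟨false, false, h⟩).symm
  · right
    rw [bis_E hB' _ _ _ rfl e e' ⟨false, true, by simpa [s, sw_sw] using h⟩, sw_sw]
  · exact Or.inr (bis_E hB' _ _ _ rfl e e' ⟨true, false, by simpa [s, sw_sw] using h⟩).symm
  · left
    have := bis_E hB' _ _ _ rfl e e' ⟨true, true, by simpa [s, sw_sw] using h⟩
    rw [← sw_sw y, ← this, sw_sw]

abbrev V := {c : List Word // Ch c}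

theorem act_cons (ε : List Word → Bool) (y : Word) (l : List Word) :
    act ε (y :: l) = s (flag ε l) y :: act ε l := rfl

theorem s_flag (ε : List Word → Bool) (x : Word) (l : List Word) :
    s (flag ε l) x = s (flag ε (x :: l)) x := by
  by_cases h : Special x
  · simp [s, sw_sp h]
  · simp [flag, h]

theorem act_ch (ε : List Word → Bool) {c : List Word} (h : Ch c) : Ch (act ε c) := by
  induction h with
  | root => simpa [act, sw] using Ch.root
  | step h1 h2 ih =>
    rw [act_cons] at ih
    rw [act_cons, act_cons]
    refine Ch.step ih ?_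
    rw [s_flag]
    exact cov_s _ h2

theorem act_inj (ε : List Word → Bool) : ∀ c d, act ε c = act ε d → c = d := by
  intro c
  induction c with
  | nil => intro d h; cases d with
    | nil => rfl
    | cons _ _ => simp [act] at h
  | cons y l ih => intro d h; cases d with
    | nil => simp [act] at h
    | cons z m =>
      rw [act_cons, act_cons, List.cons.injEq] at h
      have := ih m h.2
      subst this
      rw [← s_s (flag ε l) y, h.1, s_s]

theorem act_surj (ε : List Word → Bool) {d : List Word} (h : Ch d) : ∃ c, Ch c ∧ act ε c = d := by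
  induction h with
  | root => exact ⟨[[]], Ch.root, by simp [act, sw]⟩
  | @step x y l h1 h2 ih =>
    obtain ⟨c, hc, e⟩ := ih
    cases c with
    | nil => simp [act] at e
    | cons z m =>
      refine ⟨s (flag ε (z :: m)) y :: z :: m, Ch.step hc ?_, by rw [act_cons, s_s, e]⟩
      rw [act_cons, List.cons.injEq, s_flag] at e
      have := cov_s (flag ε (z :: m)) h2
      rwa [← e.1, s_s] at this

theorem act_par (ε : List Word → Bool) (c d : List Word) :
    (∃ y, act ε c = y :: act ε d) ↔ ∃ y, c = y :: d := by
  constructor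
  · rintro ⟨y, h⟩
    cases c with
    | nil => simp [act] at h
    | cons z m =>
      rw [act_cons, List.cons.injEq] at h
      exact ⟨z, by rw [act_inj ε _ _ h.2]⟩
  · rintro ⟨y, rfl⟩
    exact ⟨_, rfl⟩

theorem ch_cases {c : List Word} (h : Ch c) :
    c = [[]] ∨ ∃ y x l, c = y :: x :: l ∧ Ch (x :: l) ∧ Cov x y := by
  cases h with
  | root => exact Or.inl rfl
  | step h1 h2 => exact Or.inr ⟨_, _, _, rfl, h1, h2⟩

theorem ch_inv {y x : Word} {l : List Word} (h : Ch (y :: x :: l)) : Ch (x :: l) ∧ Cov x y := by
  rcases ch_cases h with e | ⟨_, _, _, e, h1, h2⟩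
  · simp at e
  · simp only [List.cons.injEq] at e
    obtain ⟨rfl, rfl, rfl⟩ := e
    exact ⟨h1, h2⟩

theorem ch_ne {c : List Word} (h : Ch c) : ∃ x l, c = x :: l := by
  cases h <;> exact ⟨_, _, rfl⟩

def r : V := ⟨[[]], Ch.root⟩

theorem adj_r {d : V} (h : T.Adj r d) : d.1 = [[false], []] := by
  rcases h with ⟨y, h⟩ | ⟨y, h⟩
  · obtain ⟨x, l, e⟩ := ch_ne d.2
    rw [e] at h
    simp [r] at h
  · have h2 := d.2
    rw [h] at h2 ⊢
    rw [(cov_nil _).1 (ch_inv h2).2]
    rfl

theorem fix_r (φ : T ≃g T) : φ r = r := by
  rcases ch_cases (φ r).2 with e | ⟨y, x, l, e, h1, h2⟩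
  · exact Subtype.ext e
  · exfalso
    have h3 : Ch ((false :: y) :: y :: x :: l) := Ch.step (Ch.step h1 h2) (cov_ins y)
    have a1 : T.Adj (φ r) ⟨_, h1⟩ := Or.inl ⟨y, e⟩
    have a2 : T.Adj (φ r) ⟨_, h3⟩ := Or.inr ⟨_, by rw [e]⟩
    have b1 := adj_r (d := φ.symm ⟨_, h1⟩) (by rw [← φ.map_adj_iff]; simpa using a1)
    have b2 := adj_r (d := φ.symm ⟨_, h3⟩) (by rw [← φ.map_adj_iff]; simpa using a2)
    have := congrArg (fun v : V => v.1.length) (φ.symm.injective (Subtype.ext (b1.trans b2.symm)))
    simp at this

theorem par (φ : T ≃g T) {c : List Word} (h : Ch c) : ∀ (y : Word) (h' : Ch (y :: c)),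
    ∃ y', (φ ⟨_, h'⟩).1 = y' :: (φ ⟨_, h⟩).1 := by
  induction h with
  | root =>
    intro y h'
    have a : T.Adj (φ r) (φ ⟨_, h'⟩) := φ.map_adj_iff.2 (Or.inr ⟨y, rfl⟩)
    have e := fix_r φ
    rw [e] at a
    exact ⟨[false], by rw [adj_r a]; show _ = _ :: (φ r).1; rw [e]; rfl⟩
  | @step x z l h1 h2 ih =>
    intro y h'
    have a : T.Adj (φ ⟨_, Ch.step h1 h2⟩) (φ ⟨_, h'⟩) := φ.map_adj_iff.2 (Or.inr ⟨y, rfl⟩)
    rcases a with ⟨w, a⟩ | a
    · obtain ⟨w', e⟩ := ih z (Ch.step h1 h2)
      rw [e, List.cons.injEq] at a
      have := congrArg (fun v : V => v.1.length) (φ.injective (Subtype.ext a.2))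
      simp at this
    · exact a

def B (φ : T ≃g T) (x y : Word) : Prop :=
  ∃ (l m : List Word) (h : Ch (x :: l)), (φ ⟨_, h⟩).1 = y :: m

theorem B_fwd (φ : T ≃g T) {x y : Word} {l m : List Word} (h : Ch (x :: l))
    (e : (φ ⟨_, h⟩).1 = y :: m) (z : Word) (hz : Cov x z) :
    ∃ z', Cov y z' ∧ (φ ⟨_, Ch.step h hz⟩).1 = z' :: y :: m := by
  obtain ⟨z', e'⟩ := par φ h z (Ch.step h hz)
  rw [e] at e'
  have := (φ ⟨_, Ch.step h hz⟩).2
  rw [e'] at this
  exact ⟨z', (ch_inv this).2, e'⟩

theorem B_le (φ : T ≃g T) {x y : Word} {l m : List Word} (h : Ch (x :: l))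
    (e : (φ ⟨_, h⟩).1 = y :: m) : dg x ≤ dg y := by
  classical
  choose f hf1 hf2 using B_fwd φ h e
  rw [← ncard_up, ← ncard_up]
  refine Set.ncard_le_ncard_of_injOn (fun z => if hz : Cov x z then f z hz else []) ?_ ?_
    (Set.finite_of_ncard_pos (by rw [ncard_up]; exact dg_pos y))
  · intro z hz
    have hz' : Cov x z := hz
    simp only [hz', dite_true]
    exact hf1 z hz'
  · intro z hz w hw e2
    have hz' : Cov x z := hz
    have hw' : Cov x w := hw
    simp only [hz', hw', dite_true] at e2
    have := φ.injective (Subtype.ext ((hf2 z hz').trans (e2 ▸ (hf2 w hw').symm)))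
    simpa using this

theorem B_bis (φ : T ≃g T) : Bis (B φ) := by
  rintro x y ⟨l, m, h, e⟩
  have h' : Ch (y :: m) := e ▸ (φ ⟨_, h⟩).2
  have e' : (φ.symm ⟨_, h'⟩).1 = x :: l := by
    have : (⟨_, h'⟩ : V) = φ ⟨_, h⟩ := Subtype.ext e.symm
    rw [this]; simp
  refine ⟨le_antisymm (B_le φ h e) (B_le φ.symm h' e'), fun z hz => ?_, fun z hz => ?_⟩
  · obtain ⟨z', c1, c2⟩ := B_fwd φ h e z hz
    exact ⟨z', c1, _, _, _, c2⟩
  · obtain ⟨z', c1, c2⟩ := B_fwd φ.symm h' e' z hz
    refine ⟨z', c1, x :: l, y :: m, Ch.step h c1, ?_⟩
    have : (⟨_, Ch.step h c1⟩ : V) = φ.symm ⟨_, Ch.step h' hz⟩ := Subtype.ext c2.symm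
    rw [this]; simp

theorem child (φ : T ≃g T) {x y : Word} {l m : List Word} (h : Ch (x :: l))
    (e : (φ ⟨_, h⟩).1 = y :: m) (z : Word) (hz : Cov x z) :
    ∃ z', Cov y z' ∧ (φ ⟨_, Ch.step h hz⟩).1 = z' :: y :: m ∧ (z' = z ∨ z' = sw z) := by
  obtain ⟨z', c1, c2⟩ := B_fwd φ h e z hz
  exact ⟨z', c1, c2, bis_all (B_bis φ) _ _ (cov_ne hz) (cov_ne c1) ⟨_, _, _, c2⟩⟩

theorem result :
    (∀ ε : List Word → Bool, ∃ φ : T ≃g T, ∀ v, (φ v).1 = act ε v.1) ∧
    (∀ φ : T ≃g T, ∃ ε : List Word → Bool, ∀ v, (φ v).1 = act ε v.1) ∧
    (∀ ε ε' : List Word → Bool, (∀ c, Ch c → act ε c = act ε' c) ↔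
      ∀ x l, Ch (x :: l) → Special x → ε (x :: l) = ε' (x :: l)) := by
  classical
  refine ⟨fun ε => ?_, fun φ => ?_, fun ε ε' => ⟨fun h x l hc hs => ?_, fun h c hc => ?_⟩⟩
  · refine ⟨⟨Equiv.ofBijective (fun v : V => (⟨act ε v.1, act_ch ε v.2⟩ : V)) ⟨?_, ?_⟩, ?_⟩, fun v => rfl⟩
    · intro v w e
      exact Subtype.ext (act_inj ε _ _ (congrArg Subtype.val e))
    · intro w
      obtain ⟨c, hc, e⟩ := act_surj ε w.2
      exact ⟨⟨c, hc⟩, Subtype.ext e⟩
    · intro v w
      exact or_congr (act_par ε v.1 w.1) (act_par ε w.1 v.1)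
  · let ε : List Word → Bool := fun c => decide (∃ (x : Word) (l : List Word) (h : Ch (mg x :: x :: l)),
      c = x :: l ∧ (φ ⟨_, h⟩).1.head? ≠ some (mg x))
    refine ⟨ε, fun v => ?_⟩
    obtain ⟨c, hc⟩ := v
    induction hc with
    | root =>
      show (φ r).1 = _
      rw [fix_r]
      simp [act, sw, r]
    | @step x y l h1 h2 ih =>
      show _ = act ε (y :: x :: l)
      have ih' : (φ ⟨_, h1⟩).1 = s (flag ε l) x :: act ε l := ih
      obtain ⟨y', c1, c2, c3⟩ := child φ h1 ih' y h2
      rw [c2, act_cons, act_cons]
      congr 1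
      by_cases hf : sw y = y
      · rcases c3 with e | e <;> simp [s, e, hf]
      by_cases sx : Special x
      · obtain ⟨_, k2, k3⟩ := sp_mg sx
        have hm := cov_mg (sp_mem sx)
        obtain ⟨m', d1, d2, d3⟩ := child φ h1 ih' _ hm
        have hε : flag ε (x :: l) = decide (m' ≠ mg x) := by
          simp only [flag, sx, if_true, ε]
          congr 1
          apply propext
          constructor
          · rintro ⟨x', l', h', e, hh⟩
            simp only [List.cons.injEq] at e
            obtain ⟨rfl, rfl⟩ := e
            rw [d2] at hh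
            simpa using hh
          · intro hh
            exact ⟨x, l, Ch.step h1 hm, rfl, by rw [d2]; simpa using hh⟩
        rw [hε]
        rcases k3 y h2 hf with e | e
        · subst e
          have : y' = m' := by
            rw [c2] at d2
            simpa using d2
          subst this
          rcases d3 with e | e <;> simp [s, e, k2]
        · have hne : y' ≠ m' := by
            intro e2
            have := φ.injective (Subtype.ext (c2.trans (e2 ▸ d2.symm)))
            simp only [Subtype.mk.injEq, List.cons.injEq, and_true] at this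
            exact k2 (e.symm.trans this)
          subst e
          rw [sw_sw] at c3
          rcases d3 with e | e <;> rcases c3 with e' | e' <;> simp_all [s, sw_sw]
      · have hfl : flag ε (x :: l) = flag ε l := by simp [flag, sx]
        rw [hfl]
        by_contra hne
        have c4 := cov_s (flag ε l) h2
        have e : y' = sw (s (flag ε l) y) := by
          revert hne
          cases flag ε l <;> rcases c3 with e | e <;> simp [s, e, sw_sw]
        have sp := lemE c4 (e ▸ c1) (e ▸ hne)
        apply sx
        have e2 : s (flag ε l) x = x := by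
          have := sw_sp sp
          revert this
          cases flag ε l <;> simp [s, sw_sw, eq_comm]
        rwa [e2] at sp
  · have := h _ (Ch.step hc (cov_mg (sp_mem hs)))
    rw [act_cons, act_cons ε', List.cons.injEq] at this
    have k := (sp_mg hs).2.1
    have t := this.1
    simp only [flag, hs, if_true] at t
    revert t
    cases ε (x :: l) <;> cases ε' (x :: l) <;> simp [s, k, k.symm]
  · have hfl : ∀ c, Ch c → flag ε c = flag ε' c := by
      intro c hc
      induction hc with
      | root => simp [flag, sp_nil]
      | @step x y l h1 h2 ih =>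
        by_cases sy : Special y
        · simp only [flag.eq_2 _ y, sy, if_true]
          exact h _ _ (Ch.step h1 h2) sy
        · simp only [flag.eq_2 _ y, sy, if_false]
          exact ih
    induction hc with
    | root => simp [act, sw]
    | @step x y l h1 h2 ih => rw [act_cons, act_cons ε', ih, hfl _ h1]

end Pool.Agent.Results.MP_ac28de_co.Aut
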